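import Mathlib

/-! The recursion bound for the centred window (MP_a19305_co). -/

set_option autoImplicit false

open Finset

namespace Pool.Agent.H72K

/-- number of the pairs `i < j < m` with `s < i + j ≤ s + v` -/
def cnt3 (m v s : ℕ) : ℕ :=
  ((Finset.range m ×ˢ Finset.range m).filter
    (fun p => p.1 < p.2 ∧ s < p.1 + p.2 ∧ p.1 + p.2 ≤ s + v)).card

lemma cnt3_eq (m v s : ℕ) :
    cnt3 m v s = ∑ j ∈ range m, (min j (s + v + 1 - j) - (s + 1 - j)) := by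
  unfold cnt3
  rw [Finset.card_filter, Finset.sum_product_right]
  apply Finset.sum_congr rfl
  intro j hj
  have hj' := Finset.mem_range.1 hj
  rw [← Finset.card_filter]
  have : (range m).filter (fun i => i < j ∧ s < i + j ∧ i + j ≤ s + v) =
      Finset.Ico (s + 1 - j) (min j (s + v + 1 - j)) := by
    ext i
    simp only [Finset.mem_filter, Finset.mem_range, Finset.mem_Ico]
    omega
  rw [this, Nat.card_Ico]

lemma piece (f : ℕ → ℕ) (n : ℕ) (a b : ℤ) (h : ∀ x < n, (f x : ℤ) = a + b * x) :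
    2 * ((∑ x ∈ range n, f x : ℕ) : ℤ) = 2 * a * n + b * n * (n - 1) := by
  induction n with
  | zero => simp
  | succ n ih =>
    rw [Finset.sum_range_succ]
    push_cast
    have h1 := ih (fun x hx => h x (by omega))
    have h2 := h n (by omega)
    push_cast at h1
    rw [h2]
    linear_combination h1

lemma four (f : ℕ → ℕ) (m n0 n1 n2 n3 : ℕ) (hm : m = n0 + n1 + n2 + n3) (a1 b1 a2 b2 a3 b3 : ℤ)
    (h1 : ∀ x < n1, (f (n0 + x) : ℤ) = a1 + b1 * x)
    (h2 : ∀ x < n2, (f (n0 + n1 + x) : ℤ) = a2 + b2 * x)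
    (h3 : ∀ x < n3, (f (n0 + n1 + n2 + x) : ℤ) = a3 + b3 * x) :
    2 * a1 * n1 + b1 * n1 * (n1 - 1) + (2 * a2 * n2 + b2 * n2 * (n2 - 1)) +
      (2 * a3 * n3 + b3 * n3 * (n3 - 1)) ≤ 2 * ((∑ x ∈ range m, f x : ℕ) : ℤ) := by
  subst hm
  have e1 := piece (fun x => f (n0 + x)) n1 a1 b1 h1
  have e2 := piece (fun x => f (n0 + n1 + x)) n2 a2 b2 h2
  have e3 := piece (fun x => f (n0 + n1 + n2 + x)) n3 a3 b3 h3
  rw [Finset.sum_range_add, Finset.sum_range_add, Finset.sum_range_add]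
  have h0 : (0 : ℤ) ≤ ((∑ x ∈ range n0, f x : ℕ) : ℤ) := by positivity
  push_cast at *
  linarith


lemma fam (m v s n0 n1 n2 n3 : ℕ) (a1 b1 a2 b2 a3 b3 : ℤ) (hm : m = n0 + n1 + n2 + n3)
    (h1 : ∀ x < n1, ((min (n0 + x) (s + v + 1 - (n0 + x)) - (s + 1 - (n0 + x)) : ℕ) : ℤ) =
      a1 + b1 * x)
    (h2 : ∀ x < n2, ((min (n0 + n1 + x) (s + v + 1 - (n0 + n1 + x)) -
      (s + 1 - (n0 + n1 + x)) : ℕ) : ℤ) = a2 + b2 * x)
    (h3 : ∀ x < n3, ((min (n0 + n1 + n2 + x) (s + v + 1 - (n0 + n1 + n2 + x)) -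
      (s + 1 - (n0 + n1 + n2 + x)) : ℕ) : ℤ) = a3 + b3 * x) :
    2 * a1 * n1 + b1 * n1 * (n1 - 1) + (2 * a2 * n2 + b2 * n2 * (n2 - 1)) +
      (2 * a3 * n3 + b3 * n3 * (n3 - 1)) ≤ 2 * (cnt3 m v s : ℤ) := by
  rw [cnt3_eq]
  exact four (fun j => min j (s + v + 1 - j) - (s + 1 - j)) m n0 n1 n2 n3 hm a1 b1 a2 b2 a3 b3
    h1 h2 h3

/-- one step of the recursion -/
lemma good (n : ℕ) (hn : 3 ≤ n) : ∃ m v s, 2 ≤ m ∧ m + v = n ∧ s + 2 ≤ m ∧
    m * (m + 2 * v) ≤ 8 * cnt3 m v s + 2 * m := by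
  have hmod : n % 8 = 0 ∨ n % 8 = 1 ∨ n % 8 = 2 ∨ n % 8 = 3 ∨ n % 8 = 4 ∨ n % 8 = 5 ∨
      n % 8 = 6 ∨ n % 8 = 7 := by omega
  rcases hmod with h | h | h | h | h | h | h | h
  · obtain ⟨j, rfl⟩ : ∃ j, n = 8 * j + 8 := ⟨n / 8 - 1, by omega⟩
    refine ⟨4 * j + 4, 4 * j + 4, 2 * j + 1, by omega, by omega, by omega, ?_⟩
    have h := fam (4 * j + 4) (4 * j + 4) (2 * j + 1) (j + 1) (j + 1) (j + 1) (j + 1)
      0 2 (2 * j + 2) 1 (3 * j + 3) (-1) (by omega) (by intro x hx; omega)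
      (by intro x hx; omega) (by intro x hx; omega)
    push_cast at h
    zify
    nlinarith [h]
  · obtain ⟨k, rfl⟩ : ∃ k, n = 8 * k + 1 := ⟨n / 8, by omega⟩
    refine ⟨4 * k + 1, 4 * k, 2 * k, by omega, by omega, by omega, ?_⟩
    have h := fam (4 * k + 1) (4 * k) (2 * k) (k + 1) k k k
      1 2 (2 * k + 1) 1 (3 * k) (-1) (by omega) (by intro x hx; omega)
      (by intro x hx; omega) (by intro x hx; omega)
    push_cast at h
    zify
    nlinarith [h]
  · obtain ⟨j, rfl⟩ : ∃ j, n = 8 * j + 10 := ⟨n / 8 - 1, by omega⟩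
    refine ⟨4 * j + 6, 4 * j + 4, 2 * j + 2, by omega, by omega, by omega, ?_⟩
    have h := fam (4 * j + 6) (4 * j + 4) (2 * j + 2) (j + 2) (j + 2) j (j + 2)
      1 2 (2 * j + 4) 1 (3 * j + 3) (-1) (by omega) (by intro x hx; omega)
      (by intro x hx; omega) (by intro x hx; omega)
    push_cast at h
    zify
    nlinarith [h]
  · obtain ⟨k, rfl⟩ : ∃ k, n = 8 * k + 3 := ⟨n / 8, by omega⟩
    refine ⟨4 * k + 2, 4 * k + 1, 2 * k, by omega, by omega, by omega, ?_⟩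
    have h := fam (4 * k + 2) (4 * k + 1) (2 * k) (k + 1) (k + 1) k k
      1 2 (2 * k + 2) 1 (3 * k) (-1) (by omega) (by intro x hx; omega)
      (by intro x hx; omega) (by intro x hx; omega)
    push_cast at h
    zify
    nlinarith [h]
  · obtain ⟨k, rfl⟩ : ∃ k, n = 8 * k + 4 := ⟨n / 8, by omega⟩
    refine ⟨4 * k + 2, 4 * k + 2, 2 * k, by omega, by omega, by omega, ?_⟩
    have h := fam (4 * k + 2) (4 * k + 2) (2 * k) (k + 1) (k + 1) k k
      1 2 (2 * k + 2) 1 (3 * k + 1) (-1) (by omega) (by intro x hx; omega)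
      (by intro x hx; omega) (by intro x hx; omega)
    push_cast at h
    zify
    nlinarith [h]
  · obtain ⟨k, rfl⟩ : ∃ k, n = 8 * k + 5 := ⟨n / 8, by omega⟩
    refine ⟨4 * k + 3, 4 * k + 2, 2 * k + 1, by omega, by omega, by omega, ?_⟩
    have h := fam (4 * k + 3) (4 * k + 2) (2 * k + 1) (k + 1) (k + 1) (k + 1) k
      0 2 (2 * k + 2) 1 (3 * k + 1) (-1) (by omega) (by intro x hx; omega)
      (by intro x hx; omega) (by intro x hx; omega)
    push_cast at h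
    zify
    nlinarith [h]
  · obtain ⟨k, rfl⟩ : ∃ k, n = 8 * k + 6 := ⟨n / 8, by omega⟩
    refine ⟨4 * k + 3, 4 * k + 3, 2 * k, by omega, by omega, by omega, ?_⟩
    have h := fam (4 * k + 3) (4 * k + 3) (2 * k) (k + 1) (k + 1) (k + 1) k
      1 2 (2 * k + 2) 1 (3 * k + 1) (-1) (by omega) (by intro x hx; omega)
      (by intro x hx; omega) (by intro x hx; omega)
    push_cast at h
    zify
    nlinarith [h]
  · obtain ⟨j, rfl⟩ : ∃ j, n = 8 * j + 7 := ⟨n / 8, by omega⟩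
    refine ⟨4 * j + 4, 4 * j + 3, 2 * j + 1, by omega, by omega, by omega, ?_⟩
    have h := fam (4 * j + 4) (4 * j + 3) (2 * j + 1) (j + 1) (j + 1) (j + 1) (j + 1)
      0 2 (2 * j + 2) 1 (3 * j + 2) (-1) (by omega) (by intro x hx; omega)
      (by intro x hx; omega) (by intro x hx; omega)
    push_cast at h
    zify
    nlinarith [h]

/-- a sequence with the recursion and `R n ≥ n (n - 2) / 8` for ALL `n` -/
theorem exists_R3 : ∃ R : ℕ → ℕ,
    (∀ n, R n = 0 ∨ ∃ m v s, 2 ≤ m ∧ m + v = n ∧ s + 2 ≤ m ∧ R n ≤ R v + cnt3 m v s) ∧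
    (∀ n, n ^ 2 ≤ 8 * R n + 2 * n) := by
  refine ⟨fun n => (n * (n - 2) + 7) / 8, fun n => ?_, fun n => ?_⟩
  · rcases Nat.lt_or_ge n 3 with hn | hn
    · left
      interval_cases n <;> rfl
    · right
      obtain ⟨m, v, s, h1, h2, h3, h4⟩ := good n hn
      refine ⟨m, v, s, h1, h2, h3, ?_⟩
      have key : n * (n - 2) ≤ v * (v - 2) + 8 * cnt3 m v s := by
        subst h2
        rcases Nat.lt_or_ge v 2 with hv | hv
        · interval_cases v
          · obtain ⟨m', rfl⟩ : ∃ m', m = m' + 2 := ⟨m - 2, by omega⟩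
            simp only [Nat.add_zero, Nat.add_sub_cancel] at *
            nlinarith [h4]
          · obtain ⟨m', rfl⟩ : ∃ m', m = m' + 2 := ⟨m - 2, by omega⟩
            have : m' + 2 + 1 - 2 = m' + 1 := by omega
            rw [this]
            nlinarith [h4]
        · obtain ⟨v', rfl⟩ : ∃ v', v = v' + 2 := ⟨v - 2, by omega⟩
          have e1 : m + (v' + 2) - 2 = m + v' := by omega
          have e2 : v' + 2 - 2 = v' := by omega
          rw [e1, e2]
          nlinarith [h4]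
      show (n * (n - 2) + 7) / 8 ≤ (v * (v - 2) + 7) / 8 + cnt3 m v s
      omega
  · show n ^ 2 ≤ 8 * ((n * (n - 2) + 7) / 8) + 2 * n
    have h1 : n * (n - 2) ≤ 8 * ((n * (n - 2) + 7) / 8) := by omega
    have h2 : n ^ 2 ≤ n * (n - 2) + 2 * n := by
      rcases Nat.lt_or_ge n 2 with hn | hn
      · interval_cases n <;> norm_num
      · obtain ⟨k, rfl⟩ : ∃ k, n = k + 2 := ⟨n - 2, by omega⟩
        have : k + 2 - 2 = k := by omega
        rw [this]
        nlinarith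
    omega

end Pool.Agent.H72K
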