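import Pool.Agent.H72K.Def3

/-! The recursion bound, first part: iterating the step. -/

set_option autoImplicit false

namespace Pool.Agent.H72K

open Pool.Agent.H42K

/-- iterating the step: any lower bound that satisfies the recursion. -/
theorem exists_cfg3 (hstep : StepK3) (R : ℕ → ℕ)
    (hR : ∀ n, R n = 0 ∨ ∃ m v s, 2 ≤ m ∧ m + v = n ∧ s + 2 ≤ m ∧ R n ≤ R v + cnt3 m v s)
    (n : ℕ) :
    ∃ (M : ℝ) (P : ℕ → Pt) (F : Finset (Finset ℕ)), 2 ≤ M ∧ Cfg M n P F ∧ R n ≤ F.card := by
  have hn : (0 : ℝ) ≤ n := Nat.cast_nonneg n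
  have key : ∀ k : ℕ, k ≤ n → ∃ (P : ℕ → Pt) (F : Finset (Finset ℕ)),
      Cfg (16 * ((n : ℝ) + 1)) k P F ∧ R k ≤ F.card := by
    intro k
    induction k using Nat.strong_induction_on with
    | _ k ih =>
      intro hk
      rcases hR k with h0 | ⟨m, v, s, hm, hmv, hs, hle⟩
      · refine ⟨fun j => ⟨0, (16 * ((n : ℝ) + 1)) ^ (2 * j), 0, 1⟩, ∅, ?_, by omega⟩
        have hpos : ∀ j : ℕ, (0 : ℝ) < (16 * ((n : ℝ) + 1)) ^ (2 * j) := by
          intro j
          apply pow_pos
          linarith
        refine ⟨?_, ?_, ?_, ?_, ?_, ?_, ?_, ?_⟩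
        · intro T hT
          exact absurd hT (Finset.notMem_empty _)
        · intro T hT
          exact absurd hT (Finset.notMem_empty _)
        · intro T hT
          exact absurd hT (Finset.notMem_empty _)
        · intro T hT
          exact absurd hT (Finset.notMem_empty _)
        · intro j hj T hT
          exact absurd hT (Finset.notMem_empty _)
        · intro j hj
          exact one_pos
        · intro j hj
          have := hpos j
          show (16 * ((n : ℝ) + 1)) ^ (2 * j) * 1 < 2 * (16 * ((n : ℝ) + 1)) ^ (2 * j)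
          linarith
        · intro j hj
          have := hpos j
          show (16 * ((n : ℝ) + 1)) ^ (2 * j) < 2 * (16 * ((n : ℝ) + 1)) ^ (2 * j) * 1
          linarith
      · obtain ⟨P, F, hC, hF⟩ := ih v (by omega) (by omega)
        have hM : 16 * ((m : ℝ) + v + 1) ≤ 16 * ((n : ℝ) + 1) := by
          have h1 : (m : ℝ) + v ≤ n := by
            have : m + v ≤ n := by omega
            exact_mod_cast this
          linarith
        obtain ⟨P', F', hC', hF'⟩ := hstep _ m v s P F hm hs hM hC
        refine ⟨P', F', ?_, by omega⟩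
        rw [← hmv]
        exact hC'
  obtain ⟨P, F, hC, hF⟩ := key n le_rfl
  exact ⟨_, P, F, by linarith, hC, hF⟩

end Pool.Agent.H72K
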