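import Pool.Agent.H42K.Def
import Pool.Agent.H72K.Arith3

/-! The step with an offset: the window `s < i + j ≤ s + v`. -/

set_option autoImplicit false

namespace Pool.Agent.H72K

open Pool.Agent.H42K

/-- the recursion step with offset `s`: `m` new points in front of a configuration of `v` points -/
def StepK3 : Prop := ∀ (M : ℝ) (m v s : ℕ) (P : ℕ → Pt) (F : Finset (Finset ℕ)),
  2 ≤ m → s + 2 ≤ m → 16 * ((m : ℝ) + v + 1) ≤ M → Cfg M v P F →
  ∃ (P' : ℕ → Pt) (F' : Finset (Finset ℕ)), Cfg M (m + v) P' F' ∧ F.card + cnt3 m v s ≤ F'.card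

end Pool.Agent.H72K
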