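import Pool.Agent.H72K.New

/-! Two slivers are separated; visibility. -/

set_option autoImplicit false

namespace Pool.Agent.H72K

open Filter Topology Pool.Agent.H42K

/-- the form of a line -/
noncomputable def lf (τ θ α γ : ℝ) : Pt := ⟨-α, 1, -θ + (γ - α) * τ, -(γ - α)⟩

lemma ap_lf_lo {M K τ ξ ω θ α γ : ℝ} {m : ℕ} (P : ℕ → Pt) {r : ℕ} (hr : r < m) :
    ap (lf τ θ α γ) (newP M K τ ξ ω m P r) = g M θ r - (α * r + γ) := by
  rw [newP_lo _ _ _ _ _ _ hr]
  unfold ap lf g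
  simp only
  ring

lemma ap_lf_hi {M K τ ξ ω θ α γ : ℝ} {m : ℕ} (P : ℕ → Pt) (k : ℕ) :
    ap (lf τ θ α γ) (newP M K τ ξ ω m P (m + k)) =
      K * (P k).y - θ * (P k).h - α * (ξ * (P k).x) + (γ - α) * (ω * (P k).w) := by
  rw [newP_hi]
  unfold ap lf
  simp only
  ring

/-- bounds for the slope of an old point -/
lemma slope_lo {M K : ℝ} {v : ℕ} {P : ℕ → Pt} {F : Finset (Finset ℕ)} (hM : 0 < M)
    (hC : Cfg M v P F) {s t : ℕ} (hK : K = M ^ (2 * s + 3)) (hs : s < t) (hsv : t ≤ s + v) :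
    lam M t * (P (t - 1 - s)).h < 2 * (K * (P (t - 1 - s)).y) := by
  have h := hC.lo (t - 1 - s) (by omega)
  have e : lam M t = K * M ^ (2 * (t - 1 - s)) := by
    unfold lam; rw [hK, ← pow_add]; congr 1; omega
  rw [e]
  have h3 : (0 : ℝ) < K := by rw [hK]; positivity
  nlinarith

lemma slope_hi {M K : ℝ} {v : ℕ} {P : ℕ → Pt} {F : Finset (Finset ℕ)} (hM : 0 < M)
    (hC : Cfg M v P F) {s t : ℕ} (hK : K = M ^ (2 * s + 3)) (hs : s < t) (hsv : t ≤ s + v) :
    K * (P (t - 1 - s)).y < 2 * lam M t * (P (t - 1 - s)).h := by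
  have h := hC.hi (t - 1 - s) (by omega)
  have e : lam M t = K * M ^ (2 * (t - 1 - s)) := by
    unfold lam; rw [hK, ← pow_add]; congr 1; omega
  rw [e]
  have h3 : (0 : ℝ) < K := by rw [hK]; positivity
  nlinarith

lemma lam_pos {M : ℝ} (hM : 0 < M) (s : ℕ) : 0 < lam M s := by unfold lam; positivity

/-- slivers with different sums -/
lemma sep_sl_lt {M K τ : ℝ} {s m v : ℕ} {P : ℕ → Pt} {F : Finset (Finset ℕ)}
    (hM : 16 * ((m : ℝ) + v + 1) ≤ M) (hK : K = M ^ (2 * s + 3)) (hC : Cfg M v P F)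
    {i j k l : ℕ} (hij : i < j) (hsi : s < i + j)
    (hj : j < m) (hkl : k < l) (hl : l < m) (hkv : k + l ≤ s + v) (hs : i + j < k + l) :
    E (fun ξ ω => Sep (newP M K τ ξ ω m P) (sl s m i j) (sl s m k l)) := by
  have hmR : (0 : ℝ) ≤ m := Nat.cast_nonneg m
  have hvR : (0 : ℝ) ≤ v := Nat.cast_nonneg v
  have hM0 : 0 < M := by linarith
  have hM1 : 1 ≤ M := by linarith
  have hM16 : 16 ≤ M := by linarith
  set θ := 2 * lam M (i + j) with hθ
  have hjM : 16 * (j : ℝ) ≤ M := by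
    have : (j : ℝ) ≤ m := by exact_mod_cast hj.le
    linarith
  have hlM : 16 * (l : ℝ) ≤ M := by
    have : (l : ℝ) ≤ m := by exact_mod_cast hl.le
    linarith
  have hll : lam M (i + j) * M ^ 2 ≤ lam M (k + l) := lam_le hM1 hs
  have hp1 := lam_pos hM0 (i + j)
  have hp2 := lam_pos hM0 (k + l)
  obtain ⟨α, γ, l1, l2, l3⟩ := line (g M θ) hij hkl (by omega)
    (fun x hx hx' => chord_lt' hx hx' hjM (by rw [hθ]; linarith))
    (fun x hx hx' => chord_gt' hx hx' hlM (by rw [hθ]; linarith))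
  -- values at the far points
  have z1 : 0 < -(K * (P (i + j - 1 - s)).y - θ * (P (i + j - 1 - s)).h) := by
    have := slope_hi hM0 hC (t := i + j) hK (by omega) (by omega)
    rw [hθ]; linarith
  have z2 : 0 < K * (P (k + l - 1 - s)).y - θ * (P (k + l - 1 - s)).h := by
    have h1 := slope_lo hM0 hC (t := k + l) hK (by omega) (by omega)
    have hpos := hC.pos (k + l - 1 - s) (by omega)
    have h2 : θ * 2 ≤ lam M (k + l) := by
      rw [hθ]
      have : (4 : ℝ) ≤ M ^ 2 := by nlinarith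
      nlinarith
    nlinarith
  have e1 := E.cont (φ := fun p => -(K * (P (i + j - 1 - s)).y - θ * (P (i + j - 1 - s)).h -
    α * (p.1 * (P (i + j - 1 - s)).x) + (γ - α) * (p.2 * (P (i + j - 1 - s)).w))) (by fun_prop)
    (by simpa using z1)
  have e2 := E.cont (φ := fun p => K * (P (k + l - 1 - s)).y - θ * (P (k + l - 1 - s)).h -
    α * (p.1 * (P (k + l - 1 - s)).x) + (γ - α) * (p.2 * (P (k + l - 1 - s)).w)) (by fun_prop)
    (by simpa using z2)
  refine (e1.and e2).mono fun ξ ω hξ hω ⟨q1, q2⟩ => Sep.symm ⟨lf τ θ α γ, ?_, ?_, ?_⟩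
  · intro r hr hr2
    rw [mem_sl] at hr2
    rcases mem_sl.1 hr with h | h | h
    · have := l2 r (Or.inl h) (by tauto)
      rw [ap_lf_lo P (by omega)]; linarith
    · have := l2 r (Or.inr h) (by tauto)
      rw [ap_lf_lo P (by omega)]; linarith
    · rw [h, ap_lf_hi]; exact q2
  · intro r hr hr2
    rw [mem_sl] at hr2
    rcases mem_sl.1 hr with h | h | h
    · have := l1 r (Or.inl h) (by tauto)
      rw [ap_lf_lo P (by omega)]; linarith
    · have := l1 r (Or.inr h) (by tauto)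
      rw [ap_lf_lo P (by omega)]; linarith
    · rw [h, ap_lf_hi]; linarith
  · intro r hr hr2
    rw [mem_sl] at hr hr2
    have hrm : r < m := by omega
    have := l3 r (by omega) (by omega)
    rw [ap_lf_lo P hrm, this]; ring

/-- nested slivers with the same sum -/
lemma sep_sl_eq {M K τ : ℝ} {s m v : ℕ} {P : ℕ → Pt} {F : Finset (Finset ℕ)}
    (hM : 16 * ((m : ℝ) + v + 1) ≤ M) (hK : K = M ^ (2 * s + 3)) (hC : Cfg M v P F)
    {i j k l : ℕ} (hik : i < k) (hsk : s < k + l)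
    (hkl : k < l) (hj : j < m) (hkv : k + l ≤ s + v) (hs : i + j = k + l) :
    E (fun ξ ω => Sep (newP M K τ ξ ω m P) (sl s m i j) (sl s m k l)) := by
  have hmR : (0 : ℝ) ≤ m := Nat.cast_nonneg m
  have hvR : (0 : ℝ) ≤ v := Nat.cast_nonneg v
  have hM0 : 0 < M := by linarith
  have hM1 : 1 ≤ M := by linarith
  have hlj : l < j := by omega
  have hjM : 16 * (j : ℝ) ≤ M := by
    have : (j : ℝ) ≤ m := by exact_mod_cast hj.le
    linarith
  set z := i + j - 1 - s with hz
  have hz' : k + l - 1 - s = z := by omega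
  have hpos := hC.pos z (by omega)
  set θ := K * (P z).y / (P z).h with hθ
  have hθ1 : lam M (i + j) ≤ 2 * θ := by
    have h1 := slope_lo hM0 hC (t := i + j) hK (by omega) (by omega)
    rw [← hz] at h1
    have : 2 * θ = 2 * (K * (P z).y) / (P z).h := by rw [hθ]; ring
    rw [this, le_div_iff₀ hpos]
    exact h1.le
  have hIJ : (i : ℝ) < j := by exact_mod_cast (by omega : i < j)
  obtain ⟨α, γ, l1, l2, l3, l4⟩ := caseC (I := i) (J := j) (K := k) (L := l)
    (gi := g M θ i) (gj := g M θ j) (gk := g M θ k) (gl := g M θ l) hIJ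
    (chord_lt' hik (by omega) hjM hθ1) (chord_lt' (by omega) hlj hjM hθ1)
  -- the corrected slope
  have hval : ∀ p : ℝ × ℝ, ∀ r : ℕ,
      g M ((K * (P z).y - α * (p.1 * (P z).x) + (γ - α) * (p.2 * (P z).w)) / (P z).h) r =
      U M r - (K * (P z).y - α * (p.1 * (P z).x) + (γ - α) * (p.2 * (P z).w)) / (P z).h *
        V M r := fun p r => rfl
  have e : ∀ (r : ℕ) (c d : ℝ), 0 < c * (g M θ r - (α * r + γ)) + d * 0 →
      E (fun ξ ω => 0 < c * (g M ((K * (P z).y - α * (ξ * (P z).x) +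
        (γ - α) * (ω * (P z).w)) / (P z).h) r - (α * r + γ))) := by
    intro r c d h
    refine E.cont (φ := fun p => c * (g M ((K * (P z).y - α * (p.1 * (P z).x) +
        (γ - α) * (p.2 * (P z).w)) / (P z).h) r - (α * r + γ))) ?_ ?_
    · simp only [hval]; fun_prop
    · have : (K * (P z).y - α * (0 * (P z).x) + (γ - α) * (0 * (P z).w)) / (P z).h = θ := by
        rw [hθ]; ring
      simp only [this]
      linarith
  have e1 := e i (-1) 0 (by linarith)
  have e2 := e j (-1) 0 (by linarith)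
  have e3 := e k 1 0 (by linarith)
  have e4 := e l 1 0 (by linarith)
  refine ((e1.and e2).and (e3.and e4)).mono fun ξ ω hξ hω ⟨⟨q1, q2⟩, q3, q4⟩ => Sep.symm
    ⟨lf τ ((K * (P z).y - α * (ξ * (P z).x) + (γ - α) * (ω * (P z).w)) / (P z).h) α γ,
      ?_, ?_, ?_⟩
  · intro r hr hr2
    rw [mem_sl, ← hz] at hr2
    rw [mem_sl, hz'] at hr
    rcases hr with h | h | h
    · rw [h, ap_lf_lo P (by omega)]; linarith
    · rw [h, ap_lf_lo P (by omega)]; linarith
    · exact absurd (Or.inr (Or.inr h)) hr2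
  · intro r hr hr2
    rw [mem_sl, hz'] at hr2
    rw [mem_sl, ← hz] at hr
    rcases hr with h | h | h
    · rw [h, ap_lf_lo P (by omega)]; linarith
    · rw [h, ap_lf_lo P (by omega)]; linarith
    · exact absurd (Or.inr (Or.inr h)) hr2
  · intro r hr hr2
    rw [mem_sl, hz'] at hr
    rw [mem_sl, ← hz] at hr2
    have : r = m + z := by omega
    rw [this, ap_lf_hi]
    field_simp
    ring

/-- two different slivers are separated -/
lemma sep_sl {M K τ : ℝ} {s m v : ℕ} {P : ℕ → Pt} {F : Finset (Finset ℕ)}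
    (hM : 16 * ((m : ℝ) + v + 1) ≤ M) (hK : K = M ^ (2 * s + 3)) (hC : Cfg M v P F)
    {i j k l : ℕ} (hij : i < j)
    (hj : j < m) (hsi : s < i + j) (hiv : i + j ≤ s + v) (hkl : k < l) (hl : l < m)
    (hsk : s < k + l) (hkv : k + l ≤ s + v) (hne : ¬ (i = k ∧ j = l)) :
    E (fun ξ ω => Sep (newP M K τ ξ ω m P) (sl s m i j) (sl s m k l)) := by
  rcases Nat.lt_trichotomy (i + j) (k + l) with h | h | h
  · exact sep_sl_lt hM hK hC hij hsi hj hkl hl hkv h
  · rcases Nat.lt_trichotomy i k with h' | h' | h'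
    · exact sep_sl_eq hM hK hC h' hsk hkl hj hkv h
    · exact absurd ⟨h', by omega⟩ hne
    · exact (sep_sl_eq hM hK hC h' hsi hij hl hiv h.symm).mono fun _ _ _ _ h => Sep.symm h
  · exact (sep_sl_lt hM hK hC hkl hsk hl hij hj hiv h).mono fun _ _ _ _ h => Sep.symm h

end Pool.Agent.H72K
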