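import Pool.Agent.H72K.VisN
import Pool.Agent.H72K.Def3

/-! The recursion step. -/

set_option autoImplicit false

namespace Pool.Agent.H72K

open Filter Topology Pool.Agent.H42K

/-- the pairs of new points -/
def prs (s m v : ℕ) : Finset (ℕ × ℕ) :=
  (Finset.range m ×ˢ Finset.range m).filter (fun p => p.1 < p.2 ∧ s < p.1 + p.2 ∧ p.1 + p.2 ≤ s + v)

lemma mem_prs {s m v : ℕ} {p : ℕ × ℕ} :
    p ∈ prs s m v ↔ p.1 < p.2 ∧ p.2 < m ∧ s < p.1 + p.2 ∧ p.1 + p.2 ≤ s + v := by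
  unfold prs
  rw [Finset.mem_filter, Finset.mem_product, Finset.mem_range, Finset.mem_range]
  constructor
  · rintro ⟨⟨_, h1⟩, h2, h3⟩; exact ⟨h2, h1, h3⟩
  · rintro ⟨h1, h2, h3⟩; exact ⟨⟨by omega, h2⟩, h1, h3⟩

/-- the new family -/
def newF (s m v : ℕ) (F : Finset (Finset ℕ)) : Finset (Finset ℕ) :=
  F.image (sh m) ∪ (prs s m v).image (fun p => sl s m p.1 p.2)

lemma mem_newF {s m v : ℕ} {F : Finset (Finset ℕ)} {T : Finset ℕ} :
    T ∈ newF s m v F ↔ (∃ S ∈ F, sh m S = T) ∨ ∃ p ∈ prs s m v, sl s m p.1 p.2 = T := by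
  unfold newF
  rw [Finset.mem_union, Finset.mem_image, Finset.mem_image]

lemma sh_inj {m : ℕ} {S T : Finset ℕ} (h : sh m S = sh m T) : S = T := by
  ext t
  rw [← mem_sh' (m := m) (T := S), h, mem_sh']

lemma sh_card {m : ℕ} (S : Finset ℕ) : (sh m S).card = S.card := by
  unfold sh
  exact Finset.card_image_of_injective _ (fun a b h => by simpa using h)

lemma sl_inj {s m i j k l : ℕ} (hij : i < j) (hj : j < m) (hkl : k < l) (hl : l < m)
    (h : sl s m i j = sl s m k l) : i = k ∧ j = l := by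
  have h1 : i ∈ sl s m k l := by rw [← h, mem_sl]; simp
  have h2 : j ∈ sl s m k l := by rw [← h, mem_sl]; simp
  have h3 : k ∈ sl s m i j := by rw [h, mem_sl]; simp
  rw [mem_sl] at h1 h2 h3
  omega

lemma sl_card {s m i j : ℕ} (hij : i < j) (hj : j < m) : (sl s m i j).card = 3 := by
  unfold sl
  rw [Finset.card_eq_three]
  exact ⟨i, j, m + (i + j - 1 - s), by omega, by omega, by omega, rfl⟩

lemma sl_ne_sh {s m i j : ℕ} (hij : i < j) (hj : j < m) (T : Finset ℕ) : sl s m i j ≠ sh m T := by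
  intro h
  have : i ∈ sh m T := by rw [← h, mem_sl]; simp
  obtain ⟨t, _, ht⟩ := mem_sh.1 this
  omega

lemma card_newF {s m v : ℕ} {F : Finset (Finset ℕ)} :
    (newF s m v F).card = F.card + cnt3 m v s := by
  unfold newF
  rw [Finset.card_union_of_disjoint, Finset.card_image_of_injOn, Finset.card_image_of_injOn]
  · rfl
  · intro p hp q hq h
    have hp' := mem_prs.1 (Finset.mem_coe.1 hp)
    have hq' := mem_prs.1 (Finset.mem_coe.1 hq)
    obtain ⟨h1, h2⟩ := sl_inj hp'.1 hp'.2.1 hq'.1 hq'.2.1 h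
    exact Prod.ext h1 h2
  · intro S _ T _ h
    exact sh_inj h
  · rw [Finset.disjoint_left]
    intro T h1 h2
    obtain ⟨S, _, rfl⟩ := Finset.mem_image.1 h1
    obtain ⟨p, hp, h⟩ := Finset.mem_image.1 h2
    have hp' := mem_prs.1 hp
    exact sl_ne_sh hp'.1 hp'.2.1 S h

lemma inter_sh {m : ℕ} {S T : Finset ℕ} (h : (S ∩ T).card ≤ 1) :
    (sh m S ∩ sh m T).card ≤ 1 := by
  have : sh m S ∩ sh m T = sh m (S ∩ T) := by
    ext r
    rw [Finset.mem_inter, mem_sh, mem_sh, mem_sh]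
    constructor
    · rintro ⟨⟨s, hs, rfl⟩, t, ht, h⟩
      have : t = s := by omega
      exact ⟨s, Finset.mem_inter.2 ⟨hs, this ▸ ht⟩, rfl⟩
    · rintro ⟨t, ht, rfl⟩
      rw [Finset.mem_inter] at ht
      exact ⟨⟨t, ht.1, rfl⟩, t, ht.2, rfl⟩
  rw [this, sh_card]
  exact h

lemma inter_sh_sl {s m i j : ℕ} (hij : i < j) (hj : j < m) (T : Finset ℕ) :
    (sh m T ∩ sl s m i j).card ≤ 1 := by
  rw [Finset.card_le_one]
  intro a ha b hb
  rw [Finset.mem_inter, mem_sl] at ha hb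
  obtain ⟨s, _, hs⟩ := mem_sh.1 ha.1
  obtain ⟨t, _, ht⟩ := mem_sh.1 hb.1
  omega

lemma inter_sl {s m i j k l : ℕ} (hij : i < j) (hj : j < m) (hsi : s < i + j) (hkl : k < l)
    (hl : l < m) (hsk : s < k + l)
    (hne : ¬ (i = k ∧ j = l)) : (sl s m i j ∩ sl s m k l).card ≤ 1 := by
  rw [Finset.card_le_one]
  intro a ha b hb
  rw [Finset.mem_inter, mem_sl, mem_sl] at ha hb
  omega

theorem stepK3 : StepK3 := by
  intro M m v s P F hm hs hM hC
  have hmR : (2 : ℝ) ≤ m := by exact_mod_cast hm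
  have hvR : (0 : ℝ) ≤ v := Nat.cast_nonneg v
  have hM1 : 1 ≤ M := by linarith
  have hM2 : 2 ≤ M := by linarith
  have hM0 : 0 < M := by linarith
  set K : ℝ := M ^ (2 * s + 3) with hK
  have hK0 : 0 < K := by rw [hK]; positivity
  set τ : ℝ := K / M ^ (2 * m) with hτd
  have hτ : 0 < τ := by rw [hτd]; positivity
  have hτm : τ * M ^ (2 * m) = K := by rw [hτd]; field_simp
  have hτ1 : τ * M ≤ 1 := by
    rw [hτd, hK, div_mul_eq_mul_div, div_le_one (by positivity), ← pow_succ]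
    exact pow_le_pow_right₀ hM1 (by omega)
  have hτle : τ ≤ 1 := by nlinarith
  -- all conditions
  have c1 : E (fun ξ ω => ∀ T ∈ F, ∀ p ∈ prs s m v,
      Sep (newP M K τ ξ ω m P) (sh m T) (sl s m p.1 p.2)) :=
    E.all F (Φ := fun T ξ ω => ∀ p ∈ prs s m v,
      Sep (newP M K τ ξ ω m P) (sh m T) (sl s m p.1 p.2)) fun T hT =>
      E.all (prs s m v) (Φ := fun p ξ ω => Sep (newP M K τ ξ ω m P) (sh m T) (sl s m p.1 p.2))
      fun p hp => by
        obtain ⟨h1, h2, hsp, h3⟩ := mem_prs.1 hp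
        exact sep_old_sl hK0 hC hT h1 h2 hsp h3
  have c2 : E (fun ξ ω => ∀ p ∈ prs s m v, ∀ q ∈ prs s m v, p ≠ q →
      Sep (newP M K τ ξ ω m P) (sl s m p.1 p.2) (sl s m q.1 q.2)) :=
    E.all (prs s m v) (Φ := fun p ξ ω => ∀ q ∈ prs s m v, p ≠ q →
      Sep (newP M K τ ξ ω m P) (sl s m p.1 p.2) (sl s m q.1 q.2)) fun p hp =>
      E.all (prs s m v) (Φ := fun q ξ ω => p ≠ q →
        Sep (newP M K τ ξ ω m P) (sl s m p.1 p.2) (sl s m q.1 q.2))
      fun q hq => by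
        obtain ⟨h1, h2, hsp, h3⟩ := mem_prs.1 hp
        obtain ⟨h4, h5, hsq, h6⟩ := mem_prs.1 hq
        by_cases h : p = q
        · exact (E.const trivial).mono fun _ _ _ _ _ h' => absurd h h'
        · refine (sep_sl hM hK hC h1 h2 hsp h3 h4 h5 hsq h6 ?_).mono fun _ _ _ _ q _ => q
          rintro ⟨a, b⟩
          exact h (Prod.ext a b)
  have c3 : E (fun ξ ω => ∀ k < v, ∀ T ∈ F, Vis (newP M K τ ξ ω m P) (m + k) (sh m T)) :=
    E.lt v (Φ := fun k ξ ω => ∀ T ∈ F, Vis (newP M K τ ξ ω m P) (m + k) (sh m T)) fun k hk =>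
      E.all F (Φ := fun T ξ ω => Vis (newP M K τ ξ ω m P) (m + k) (sh m T)) fun T hT =>
        vis_old hK0 hτ (hC.vis k hk T hT)
  have c4 : E (fun ξ ω => ∀ k < v, ∀ p ∈ prs s m v,
      Vis (newP M K τ ξ ω m P) (m + k) (sl s m p.1 p.2)) :=
    E.lt v (Φ := fun k ξ ω => ∀ p ∈ prs s m v,
      Vis (newP M K τ ξ ω m P) (m + k) (sl s m p.1 p.2)) fun k hk =>
      E.all (prs s m v) (Φ := fun p ξ ω => Vis (newP M K τ ξ ω m P) (m + k) (sl s m p.1 p.2))
      fun p hp => by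
        obtain ⟨h1, h2, hsp, h3⟩ := mem_prs.1 hp
        exact vis_old_sl hM2 hK0 hτ hC hk h1 h2 hsp h3
  have c5 : E (fun ξ ω => ∀ i < m, ∀ T ∈ F, Vis (newP M K τ ξ ω m P) i (sh m T)) :=
    E.lt m (Φ := fun i ξ ω => ∀ T ∈ F, Vis (newP M K τ ξ ω m P) i (sh m T)) fun i hi =>
      E.all F (Φ := fun T ξ ω => Vis (newP M K τ ξ ω m P) i (sh m T)) fun T hT =>
        vis_new_old hM1 hτ hC hT hi
  have c6 : E (fun ξ ω => ∀ i < m, ∀ p ∈ prs s m v,
      Vis (newP M K τ ξ ω m P) i (sl s m p.1 p.2)) :=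
    E.lt m (Φ := fun i ξ ω => ∀ p ∈ prs s m v,
      Vis (newP M K τ ξ ω m P) i (sl s m p.1 p.2)) fun i hi =>
      E.all (prs s m v) (Φ := fun p ξ ω => Vis (newP M K τ ξ ω m P) i (sl s m p.1 p.2))
      fun p hp => by
        obtain ⟨h1, h2, hsp, h3⟩ := mem_prs.1 hp
        exact vis_new_sl hM hτ hτ1 hC hi h1 h2 hsp h3
  have c7 : E (fun _ ω => ∀ k < v, 0 < τ * (P k).h - ω * (P k).w) :=
    E.lt v (Φ := fun k _ ω => 0 < τ * (P k).h - ω * (P k).w) fun k hk =>
      E.cont (φ := fun p => τ * (P k).h - p.2 * (P k).w) (by fun_prop) (by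
        have := hC.pos k hk
        simp only [zero_mul, sub_zero]; positivity)
  have c8 : E (fun _ ω => ∀ k < v, 0 < 2 * (K * (P k).y) -
      M ^ (2 * (m + k)) * (τ * (P k).h - ω * (P k).w)) :=
    E.lt v (Φ := fun k _ ω => 0 < 2 * (K * (P k).y) -
      M ^ (2 * (m + k)) * (τ * (P k).h - ω * (P k).w)) fun k hk =>
      E.cont (φ := fun p => 2 * (K * (P k).y) -
        M ^ (2 * (m + k)) * (τ * (P k).h - p.2 * (P k).w)) (by fun_prop) (by
        have h1 := hC.lo k hk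
        have h3 : (0 : ℝ) < K := hK0
        have h2 : M ^ (2 * (m + k)) * (τ * (P k).h) = K * (M ^ (2 * k) * (P k).h) := by
          rw [← hτm, mul_add, pow_add]; ring
        simp only [zero_mul, sub_zero]
        rw [h2]
        nlinarith)
  have c9 : E (fun _ ω => ∀ k < v, 0 < 2 * M ^ (2 * (m + k)) * (τ * (P k).h - ω * (P k).w) -
      K * (P k).y) :=
    E.lt v (Φ := fun k _ ω => 0 < 2 * M ^ (2 * (m + k)) * (τ * (P k).h - ω * (P k).w) -
      K * (P k).y) fun k hk =>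
      E.cont (φ := fun p => 2 * M ^ (2 * (m + k)) * (τ * (P k).h - p.2 * (P k).w) -
        K * (P k).y) (by fun_prop) (by
        have h1 := hC.hi k hk
        have h3 : (0 : ℝ) < K := hK0
        have h2 : 2 * M ^ (2 * (m + k)) * (τ * (P k).h) =
            K * (2 * M ^ (2 * k) * (P k).h) := by
          rw [← hτm, mul_add, pow_add]; ring
        simp only [zero_mul, sub_zero]
        rw [h2]
        nlinarith)
  obtain ⟨ξ, ω, hξ, hω, ⟨⟨q1, q2⟩, q3, q4⟩, ⟨q5, q6⟩, q7, q8, q9⟩ :=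
    (((c1.and c2).and (c3.and c4)).and ((c5.and c6).and (c7.and (c8.and c9)))).exists
  refine ⟨newP M K τ ξ ω m P, newF s m v F, ?_, (card_newF).ge⟩
  refine ⟨?_, ?_, ?_, ?_, ?_, ?_, ?_, ?_⟩
  · intro T hT
    rcases mem_newF.1 hT with ⟨S, hS, rfl⟩ | ⟨p, hp, rfl⟩
    · intro r hr
      obtain ⟨s, hs, rfl⟩ := mem_sh.1 hr
      have := Finset.mem_range.1 (hC.sub S hS hs)
      rw [Finset.mem_range]; omega
    · obtain ⟨h1, h2, hsp, h3⟩ := mem_prs.1 hp
      intro r hr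
      rw [mem_sl] at hr
      rw [Finset.mem_range]; omega
  · intro T hT
    rcases mem_newF.1 hT with ⟨S, hS, rfl⟩ | ⟨p, hp, rfl⟩
    · rw [sh_card]; exact hC.card S hS
    · obtain ⟨h1, h2, hsp, h3⟩ := mem_prs.1 hp
      exact sl_card h1 h2
  · intro S hS T hT hne
    rcases mem_newF.1 hS with ⟨S', hS', rfl⟩ | ⟨p, hp, rfl⟩
    · rcases mem_newF.1 hT with ⟨T', hT', rfl⟩ | ⟨q, hq, rfl⟩
      · exact inter_sh (hC.inter S' hS' T' hT' (fun h => hne (by rw [h])))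
      · obtain ⟨h1, h2, hsq, h3⟩ := mem_prs.1 hq
        exact inter_sh_sl h1 h2 S'
    · obtain ⟨h1, h2, hsp, h3⟩ := mem_prs.1 hp
      rcases mem_newF.1 hT with ⟨T', hT', rfl⟩ | ⟨q, hq, rfl⟩
      · rw [Finset.inter_comm]; exact inter_sh_sl h1 h2 T'
      · obtain ⟨h4, h5, hsq, h6⟩ := mem_prs.1 hq
        exact inter_sl h1 h2 hsp h4 h5 hsq (fun h => hne (by rw [h.1, h.2]))
  · intro S hS T hT hne
    rcases mem_newF.1 hS with ⟨S', hS', rfl⟩ | ⟨p, hp, rfl⟩
    · rcases mem_newF.1 hT with ⟨T', hT', rfl⟩ | ⟨q, hq, rfl⟩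
      · exact sep_old hK0 hξ hω (hC.sep S' hS' T' hT' (fun h => hne (by rw [h])))
      · exact q1 S' hS' q hq
    · rcases mem_newF.1 hT with ⟨T', hT', rfl⟩ | ⟨q, hq, rfl⟩
      · exact Sep.symm (q1 T' hT' p hp)
      · exact q2 p hp q hq (fun h => hne (by rw [h]))
  · intro k hk T hT
    rcases Nat.lt_or_ge k m with hkm | hkm
    · rcases mem_newF.1 hT with ⟨S, hS, rfl⟩ | ⟨p, hp, rfl⟩
      · exact q5 k hkm S hS
      · exact q6 k hkm p hp
    · obtain ⟨k', rfl⟩ := Nat.exists_eq_add_of_le hkm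
      rcases mem_newF.1 hT with ⟨S, hS, rfl⟩ | ⟨p, hp, rfl⟩
      · exact q3 k' (by omega) S hS
      · exact q4 k' (by omega) p hp
  · intro k hk
    rcases Nat.lt_or_ge k m with hkm | hkm
    · rw [newP_lo _ _ _ _ _ _ hkm]
      have := V_pos hM0 k
      simp only; positivity
    · obtain ⟨k', rfl⟩ := Nat.exists_eq_add_of_le hkm
      rw [newP_hi]
      exact q7 k' (by omega)
  · intro k hk
    rcases Nat.lt_or_ge k m with hkm | hkm
    · rw [newP_lo _ _ _ _ _ _ hkm]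
      have h1 := V_pos hM0 k
      have h2 := V_le_one hM1 k
      have h3 : τ * V M k < 1 := by
        have : τ * 2 ≤ 1 := by nlinarith
        nlinarith
      have h4 : 0 < M ^ (2 * k) := by positivity
      simp only
      unfold U
      nlinarith
    · obtain ⟨k', rfl⟩ := Nat.exists_eq_add_of_le hkm
      rw [newP_hi]
      have := q8 k' (by omega)
      simp only; linarith
  · intro k hk
    rcases Nat.lt_or_ge k m with hkm | hkm
    · rw [newP_lo _ _ _ _ _ _ hkm]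
      have h1 := V_pos hM0 k
      have h4 : 0 < M ^ (2 * k) := by positivity
      have h5 : 0 < τ * V M k := by positivity
      simp only
      unfold U
      nlinarith
    · obtain ⟨k', rfl⟩ := Nat.exists_eq_add_of_le hkm
      rw [newP_hi]
      have := q9 k' (by omega)
      simp only; linarith

end Pool.Agent.H72K
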