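import Pool.Agent.H72K.Sliver

/-! Visibility of the new configuration. -/

set_option autoImplicit false

namespace Pool.Agent.H72K

open Filter Topology Pool.Agent.H42K

lemma V_pos {M : ℝ} (hM : 0 < M) (r : ℕ) : 0 < V M r := by unfold V; positivity

lemma U_pos {M : ℝ} (hM : 0 < M) (r : ℕ) : 0 < U M r := by unfold U; positivity

lemma V_le_one {M : ℝ} (hM : 1 ≤ M) (r : ℕ) : V M r ≤ 1 := by
  unfold V; exact inv_le_one_of_one_le₀ (one_le_pow₀ hM)

lemma V_anti {M : ℝ} (hM : 1 ≤ M) {r s : ℕ} (h : r ≤ s) : V M s ≤ V M r := by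
  unfold V
  exact inv_anti₀ (by positivity) (pow_le_pow_right₀ hM (by omega))

lemma V_step {M : ℝ} (hM : 1 ≤ M) {r s : ℕ} (h : r < s) : M ^ 2 * V M s ≤ V M r := by
  have hM0 : 0 < M := by linarith
  unfold V
  rw [mul_inv_le_iff₀ (by positivity), ← div_eq_inv_mul, le_div_iff₀ (by positivity), ← pow_add]
  exact pow_le_pow_right₀ hM (by omega)

/-- a new point sees an old triangle -/
lemma vis_new_old {M K τ : ℝ} (hM : 1 ≤ M) (hτ : 0 < τ) {m v : ℕ} {P : ℕ → Pt}
    {F : Finset (Finset ℕ)} (hC : Cfg M v P F) {T : Finset ℕ} (hT : T ∈ F) {i : ℕ}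
    (hi : i < m) : E (fun ξ ω => Vis (newP M K τ ξ ω m P) i (sh m T)) := by
  have hM0 : 0 < M := by linarith
  have hV := V_pos hM0 i
  have e := E.all T (Φ := fun t _ ω => 0 < (1 + τ * V M i) * (P t).h -
    V M i * (τ * (P t).h - ω * (P t).w)) (fun t ht => by
      refine E.cont (φ := fun p => (1 + τ * V M i) * (P t).h -
        V M i * (τ * (P t).h - p.2 * (P t).w)) (by fun_prop) ?_
      have := hC.pos t (Finset.mem_range.1 (hC.sub T hT ht))
      simp only [zero_mul, sub_zero]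
      linarith)
  refine e.mono fun ξ ω hξ hω q => ⟨⟨0, 0, 1 + τ * V M i, -V M i⟩, ?_, ?_, ?_⟩
  · simp only; positivity
  · rw [newP_lo _ _ _ _ _ _ hi]; unfold ap; simp only; ring
  · intro r hr hr2
    obtain ⟨t, ht, rfl⟩ := mem_sh.1 hr
    have := q t ht
    rw [newP_hi]; unfold ap; simp only; linarith

/-- the key inequality for new points -/
lemma new_ineq {M τ : ℝ} {m i j : ℕ} (hM : 16 * ((m : ℝ) + 1) ≤ M) (hτ : 0 < τ)
    (hτ1 : τ * M ≤ 1) (hi : i < m) (hj : j < m) (hij : j ≠ i) :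
    0 < (1 + τ * V M i) * (2 * V M i * (j + 1) + V M j) -
      (2 * V M i * (i + 1) + V M i) * (1 + τ * V M j) := by
  have hmR : (0 : ℝ) ≤ m := Nat.cast_nonneg m
  have hM1 : 1 ≤ M := by linarith
  have hM0 : 0 < M := by linarith
  have hVi := V_pos hM0 i
  have hVj := V_pos hM0 j
  have hVi1 := V_le_one hM1 i
  have hiR : (i : ℝ) + 1 ≤ m := by exact_mod_cast hi
  have hi0 : (0 : ℝ) ≤ i := Nat.cast_nonneg i
  have hj0 : (0 : ℝ) ≤ j := Nat.cast_nonneg j
  have key : (1 + τ * V M i) * (2 * V M i * (j + 1) + V M j) -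
      (2 * V M i * (i + 1) + V M i) * (1 + τ * V M j) =
      2 * V M i * ((j : ℝ) - i) + V M j - V M i +
        2 * V M i * τ * (((j : ℝ) + 1) * V M i - (i + 1) * V M j) := by ring
  rw [key]
  rcases Nat.lt_or_gt_of_ne hij with h | h
  · -- j < i
    have h1 := V_step hM1 h
    have h2 : (i : ℝ) - j ≤ m := by linarith
    have hm16 : 16 * (m : ℝ) ≤ M := by linarith
    have t1 : 2 * V M i * τ * ((i + 1) * V M j) ≤ V M j / 8 := by
      have : V M i * τ * ((i : ℝ) + 1) ≤ 1 / 16 := by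
        have a1 : τ * ((i : ℝ) + 1) ≤ 1 / 16 := by
          have : τ * (16 * ((i : ℝ) + 1)) ≤ τ * M := by
            apply mul_le_mul_of_nonneg_left _ hτ.le; linarith
          linarith
        have a2 : 0 ≤ τ * ((i : ℝ) + 1) := by positivity
        nlinarith
      nlinarith
    have t2 : 0 ≤ 2 * V M i * τ * (((j : ℝ) + 1) * V M i) := by positivity
    have t3 : 2 * V M i * ((i : ℝ) - j) ≤ V M i * M := by nlinarith
    have t4 : V M i * M * 4 ≤ V M j := by
      have : M * 16 ≤ M ^ 2 := by nlinarith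
      nlinarith
    have t5 : V M i * 16 ≤ V M i * M := by nlinarith
    nlinarith
  · have hji : (1 : ℝ) ≤ (j : ℝ) - i := by
      have : (i : ℝ) + 1 ≤ j := by exact_mod_cast h
      linarith
    have h1 := V_anti hM1 h.le
    have t1 : 0 ≤ ((j : ℝ) + 1) * V M i - (i + 1) * V M j := by
      have : (i : ℝ) + 1 ≤ j + 1 := by linarith
      nlinarith
    have t2 : 0 ≤ 2 * V M i * τ * (((j : ℝ) + 1) * V M i - (i + 1) * V M j) := by positivity
    nlinarith

/-- a new point sees a sliver -/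
lemma vis_new_sl {M K τ : ℝ} {s m v : ℕ} {P : ℕ → Pt} {F : Finset (Finset ℕ)}
    (hM : 16 * ((m : ℝ) + v + 1) ≤ M) (hτ : 0 < τ) (hτ1 : τ * M ≤ 1) (hC : Cfg M v P F)
    {i j k : ℕ} (hi : i < m) (hjk : j < k) (hk : k < m) (hs : s < j + k) (hv : j + k ≤ s + v) :
    E (fun ξ ω => Vis (newP M K τ ξ ω m P) i (sl s m j k)) := by
  have hmR : (0 : ℝ) ≤ m := Nat.cast_nonneg m
  have hvR : (0 : ℝ) ≤ v := Nat.cast_nonneg v
  have hM1 : 1 ≤ M := by linarith
  have hM0 : 0 < M := by linarith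
  have hM' : 16 * ((m : ℝ) + 1) ≤ M := by linarith
  have hVi := V_pos hM0 i
  have hVi1 := V_le_one hM1 i
  set z := j + k - 1 - s with hz
  have hpos := hC.pos z (by omega)
  have hiR : (i : ℝ) + 1 ≤ m := by exact_mod_cast hi
  have hi0 : (0 : ℝ) ≤ i := Nat.cast_nonneg i
  have e := E.cont (φ := fun p => (1 + τ * V M i) * (2 * V M i * (p.1 * (P z).x) + (P z).h) -
    (2 * V M i * (i + 1) + V M i) * (τ * (P z).h - p.2 * (P z).w)) (by fun_prop) (by
      simp only [zero_mul, mul_zero, sub_zero, zero_add]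
      have a1 : τ * ((i : ℝ) + 1) ≤ 1 / 16 := by
        have : τ * (16 * ((i : ℝ) + 1)) ≤ τ * M := by
          apply mul_le_mul_of_nonneg_left _ hτ.le; linarith
        linarith
      have a2 : 0 ≤ τ * ((i : ℝ) + 1) := by positivity
      have a3 : V M i * (τ * ((i : ℝ) + 1)) ≤ 1 / 16 := by nlinarith
      have : (1 + τ * V M i) * (P z).h - (2 * V M i * (i + 1) + V M i) * (τ * (P z).h) =
        (1 - 2 * (V M i * (τ * ((i : ℝ) + 1)))) * (P z).h := by ring
      rw [this]
      apply mul_pos _ hpos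
      linarith)
  refine e.mono fun ξ ω hξ hω q => ⟨⟨2 * V M i * (1 + τ * V M i), 0, 1 + τ * V M i,
    -(2 * V M i * (i + 1) + V M i)⟩, ?_, ?_, ?_⟩
  · simp only; positivity
  · rw [newP_lo _ _ _ _ _ _ hi]; unfold ap; simp only; ring
  · intro r hr hr2
    rcases mem_sl.1 hr with h | h | h
    · rw [h, newP_lo _ _ _ _ _ _ (by omega)]
      have := new_ineq hM' hτ hτ1 hi (j := j) (by omega) (by omega)
      unfold ap; simp only; linarith
    · rw [h, newP_lo _ _ _ _ _ _ hk]
      have := new_ineq hM' hτ hτ1 hi (j := k) hk (by omega)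
      unfold ap; simp only; linarith
    · rw [h, ← hz, newP_hi]
      unfold ap; simp only; linarith

/-- the slopes of the old points are increasing -/
lemma slope_mono {M : ℝ} {v : ℕ} {P : ℕ → Pt} {F : Finset (Finset ℕ)} (hM : 2 ≤ M)
    (hC : Cfg M v P F) {k s : ℕ} (hks : k < s) (hs : s < v) :
    (P k).y * (P s).h < (P s).y * (P k).h := by
  have h1 := hC.hi k (by omega)
  have h2 := hC.lo s hs
  have p1 := hC.pos k (by omega)
  have p2 := hC.pos s hs
  have h3 : 4 * M ^ (2 * k) ≤ M ^ (2 * s) := by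
    have a : M ^ (2 * k) * M ^ 2 ≤ M ^ (2 * s) := by
      rw [← pow_add]; exact pow_le_pow_right₀ (by linarith) (by omega)
    have b : 0 < M ^ (2 * k) := by positivity
    have c : (4 : ℝ) ≤ M ^ 2 := by nlinarith
    nlinarith
  calc (P k).y * (P s).h < (2 * M ^ (2 * k) * (P k).h) * (P s).h :=
        mul_lt_mul_of_pos_right h1 p2
    _ = (4 * M ^ (2 * k)) * ((P k).h * (P s).h) / 2 := by ring
    _ ≤ M ^ (2 * s) * ((P k).h * (P s).h) / 2 := by
        have : 0 < (P k).h * (P s).h := by positivity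
        have := mul_le_mul_of_nonneg_right h3 this.le
        linarith
    _ = (M ^ (2 * s) * (P s).h) * (P k).h / 2 := by ring
    _ < (2 * (P s).y) * (P k).h / 2 := by
        have := mul_lt_mul_of_pos_right h2 p1
        linarith
    _ = (P s).y * (P k).h := by ring

/-- an old point sees a sliver -/
lemma vis_old_sl {M K τ : ℝ} {s m v : ℕ} {P : ℕ → Pt} {F : Finset (Finset ℕ)}
    (hM : 2 ≤ M) (hK : 0 < K) (hτ : 0 < τ) (hC : Cfg M v P F)
    {i j k : ℕ} (hk : k < v) (hij : i < j) (hj : j < m) (hs : s < i + j) (hv : i + j ≤ s + v) :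
    E (fun ξ ω => Vis (newP M K τ ξ ω m P) (m + k) (sl s m i j)) := by
  have hM0 : 0 < M := by linarith
  set z := i + j - 1 - s with hz
  have hzv : z < v := by omega
  have pk := hC.pos k hk
  have pz := hC.pos z hzv
  -- the sign
  obtain ⟨β, hβ⟩ : ∃ β : ℝ, z ≠ k → 0 < β * ((P z).y * (P k).h - (P k).y * (P z).h) := by
    rcases Nat.lt_trichotomy z k with h | h | h
    · exact ⟨-1, fun _ => by have := slope_mono hM hC h hk; linarith⟩
    · exact ⟨0, fun h' => absurd h h'⟩
    · exact ⟨1, fun _ => by have := slope_mono hM hC h hzv; linarith⟩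
  -- the big constant
  have hA : ∀ r : ℕ, ∀ᶠ A in atTop, 0 < τ * (P k).h * (A * ((r : ℝ) + 1) + β * U M r + V M r) -
      (β * (K * (P k).y) + (P k).h) * (1 + τ * V M r) := by
    intro r
    have hc : 0 < τ * (P k).h * ((r : ℝ) + 1) := by positivity
    have h1 : Tendsto (fun A : ℝ => A * (τ * (P k).h * ((r : ℝ) + 1))) atTop atTop :=
      tendsto_id.atTop_mul_const hc
    filter_upwards [h1.eventually_gt_atTop (-(τ * (P k).h * (β * U M r + V M r) -
      (β * (K * (P k).y) + (P k).h) * (1 + τ * V M r)))] with A hA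
    nlinarith
  obtain ⟨A, a1, a2⟩ := ((hA i).and (hA j)).exists
  have c : ∀ r : ℕ, 0 < τ * (P k).h * (A * ((r : ℝ) + 1) + β * U M r + V M r) -
      (β * (K * (P k).y) + (P k).h) * (1 + τ * V M r) →
      E (fun ξ ω => 0 < (τ * (P k).h - ω * (P k).w) * (A * ((r : ℝ) + 1) + β * U M r + V M r) -
        (A * (ξ * (P k).x) + β * (K * (P k).y) + (P k).h) * (1 + τ * V M r)) := by
    intro r h
    refine E.cont (φ := fun p => (τ * (P k).h - p.2 * (P k).w) *
      (A * ((r : ℝ) + 1) + β * U M r + V M r) -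
        (A * (p.1 * (P k).x) + β * (K * (P k).y) + (P k).h) * (1 + τ * V M r))
      (by fun_prop) ?_
    simp only [zero_mul, mul_zero, sub_zero, zero_add]
    exact h
  have e0 : E (fun _ ω => 0 < τ * (P k).h - ω * (P k).w) :=
    E.cont (φ := fun p => τ * (P k).h - p.2 * (P k).w) (by fun_prop) (by simp; positivity)
  have e3 : z ≠ k → E (fun ξ ω => 0 < (τ * (P k).h - ω * (P k).w) *
      (A * (ξ * (P z).x) + β * (K * (P z).y) + (P z).h) -
      (A * (ξ * (P k).x) + β * (K * (P k).y) + (P k).h) *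
        (τ * (P z).h - ω * (P z).w)) := by
    intro h
    refine E.cont (φ := fun p => (τ * (P k).h - p.2 * (P k).w) *
      (A * (p.1 * (P z).x) + β * (K * (P z).y) + (P z).h) -
      (A * (p.1 * (P k).x) + β * (K * (P k).y) + (P k).h) *
        (τ * (P z).h - p.2 * (P z).w)) (by fun_prop) ?_
    simp only [zero_mul, mul_zero, sub_zero, zero_add]
    have : τ * (P k).h * (β * (K * (P z).y) + (P z).h) -
        (β * (K * (P k).y) + (P k).h) * (τ * (P z).h) =
        τ * K * (β * ((P z).y * (P k).h - (P k).y * (P z).h)) := by ring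
    rw [this]
    have := hβ h
    positivity
  have e4 : E (fun ξ ω => z ≠ k → 0 < (τ * (P k).h - ω * (P k).w) *
      (A * (ξ * (P z).x) + β * (K * (P z).y) + (P z).h) -
      (A * (ξ * (P k).x) + β * (K * (P k).y) + (P k).h) *
        (τ * (P z).h - ω * (P z).w)) := by
    by_cases h : z = k
    · exact (E.const trivial).mono fun _ _ _ _ _ h' => absurd h h'
    · exact (e3 h).mono fun _ _ _ _ q _ => q
  refine (((c i a1).and (c j a2)).and (e0.and e4)).mono fun ξ ω hξ hω ⟨⟨q1, q2⟩, q3, q4⟩ =>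
    ⟨⟨A * (τ * (P k).h - ω * (P k).w), β * (τ * (P k).h - ω * (P k).w),
      τ * (P k).h - ω * (P k).w, -(A * (ξ * (P k).x) + β * (K * (P k).y) + (P k).h)⟩,
      q3, ?_, ?_⟩
  · rw [newP_hi]; unfold ap; simp only; ring
  · intro r hr hr2
    rcases mem_sl.1 hr with h | h | h
    · rw [h, newP_lo _ _ _ _ _ _ (by omega)]
      unfold ap; simp only; linarith
    · rw [h, newP_lo _ _ _ _ _ _ hj]
      unfold ap; simp only; linarith
    · rw [h, ← hz, newP_hi]
      have := q4 (by omega)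
      unfold ap; simp only; linarith

end Pool.Agent.H72K
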